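import Pool.Agent.U695.IG.Pauli

/-!
# MP_3b70de_al, Q1: isomorphism game algebras do not always embed into the full group C*-algebra of
a solution group

For finite graphs `G, H` and any group `Γ`, a unital *-homomorphism from the isomorphism game
algebra `𝒜(G, H)` to the full group C*-algebra `C*(Γ)` exists exactly when `G ≅ H` (compose with the
trivial character of `C*(Γ)`, see `Pool.Agent.U695.IG.hom_iff_iso`). The two magic square graphs on
24 vertices are not isomorphic, but have a nonzero isomorphism game algebra; so it does not embed
into `C*(Γ(M, b))` for any binary linear system `M x = b`. This is the negated form of Q1.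
-/

set_option autoImplicit false

namespace Pool.Agent.Results.MP_3b70de_al.NoEmbedding

open Pool.Agent.U695.IG

/-- There are finite graphs `G, H` whose isomorphism game algebra `𝒜(G, H)` exists, is nonzero, and
has no unital *-homomorphism (injective or not) into the full group C*-algebra of the solution group
`Γ(M, b)` of any binary linear system `M x = b` (this full group C*-algebra exists). -/
theorem result :
    ∃ (V : Type) (_ : Fintype V) (G H : SimpleGraph V),
      (∃ (A : Type) (_ : CStarAlgebra A) (p : V → V → A), IsIsoGameAlgebra G H p) ∧
      ∀ (A : Type) [CStarAlgebra A] (p : V → V → A), IsIsoGameAlgebra G H p →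
        Nontrivial A ∧
        ∀ (m n : ℕ) (M : Matrix (Fin m) (Fin n) (ZMod 2)) (b : Fin m → ZMod 2),
          (∃ (C : Type) (_ : CStarAlgebra C) (u : SolutionGroup M b →* unitary C),
            IsFullGroupCStar u) ∧
          ∀ (C : Type) [CStarAlgebra C] (u : SolutionGroup M b →* unitary C),
            IsFullGroupCStar u → IsEmpty (A →⋆ₐ[ℂ] C) := by
  refine ⟨Square.Vert, inferInstance, Square.gr Square.beta, Square.gr 0,
    exists_isoGameAlgebra _ _, fun A _ p hp =>
      ⟨Square.nontrivial_of_isIsoGameAlgebra hp, fun m n M b =>
        ⟨exists_fullGroupCStar _, fun C _ u hu => ⟨fun φ => ?_⟩⟩⟩⟩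
  obtain ⟨e⟩ := (hom_iff_iso hp hu).1 ⟨φ⟩
  exact Square.not_iso.false e

end Pool.Agent.Results.MP_3b70de_al.NoEmbedding
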